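import Pool.Agent.N275.GP.Fin2

set_option autoImplicit false

/-!
# Convex domains with the Dirichlet spectrum of a polygon

For every `N` at least `3` and almost every convex `N`-gon `P` the bounded convex domains `D` with the
same Dirichlet spectrum as `P`, whatever their boundary, are these: the domains congruent to `P`, and
perhaps some polygons with more than `N` vertices, whose number of vertices times the least distance
of two non-adjacent sides of `P` is at most the perimeter of `P`. Among the convex domains which are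
polygons with at most `N` vertices, finitely many eigenvalues determine `P`, and so do all but
finitely many.

The proof is described in `Results/MP_5b0138_an/AlmostEveryPolygon`.
-/

open MeasureTheory Filter Set
open Pool.Agent.W780.PG (IsConvexPolygon region)
open Pool.Agent.W703.GP (dirichletEigenvalue)

namespace Pool.Agent.Results.MP_c1b9d3_an.IsospectralToPolygon

/-- a bounded convex domain of the plane -/
structure ConvexDomain (D : Set ℂ) : Prop where
  isOpen : IsOpen D
  convex : Convex ℝ D
  isBounded : Bornology.IsBounded D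
  nonempty : D.Nonempty

/-- `D` is the interior of a convex polygon with exactly `k` vertices -/
def IsPolygon (k : ℕ) (D : Set ℂ) : Prop :=
  ∃ m, m + 3 = k ∧ ∃ q : Fin (m + 3) → ℂ, IsConvexPolygon q ∧ region q = D

/-- congruence: `φ : ℂ ≃ᵢ ℂ` is an isometry of the plane -/
def Congruent (D D' : Set ℂ) : Prop := ∃ φ : ℂ ≃ᵢ ℂ, φ '' D = D'

/-- the least distance between two sides which are not adjacent -/
noncomputable def leastDistance {n : ℕ} (p : Fin (n + 3) → ℂ) : ℝ :=
  sInf {r : ℝ | ∃ i j : Fin (n + 3), j ≠ i ∧ j ≠ i + 1 ∧ i ≠ j + 1 ∧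
    ∃ x ∈ segment ℝ (p i) (p (i + 1)), ∃ y ∈ segment ℝ (p j) (p (j + 1)), r = dist x y}

/-- the perimeter -/
noncomputable def perimeter {n : ℕ} (p : Fin (n + 3) → ℂ) : ℝ := ∑ i, ‖p (i + 1) - p i‖

/-- `p : Fin (n + 3) → ℂ` with `IsConvexPolygon p` lists the vertices of an arbitrary convex polygon
`region p` with `n + 3` vertices, in counterclockwise order; `volume` is Lebesgue measure. -/
theorem result (n : ℕ) : ∃ G : Set (Fin (n + 3) → ℂ), IsOpen G ∧
    volume ({p | IsConvexPolygon p} \ G) = 0 ∧
    ∀ p ∈ G, IsConvexPolygon p ∧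
      (∀ D : Set ℂ, ConvexDomain D →
        (∀ k, 1 ≤ k → dirichletEigenvalue (region p) k = dirichletEigenvalue D k) →
        Congruent (region p) D ∨
          ∃ k > n + 3, IsPolygon k D ∧ k * leastDistance p ≤ perimeter p) ∧
      (∀ D : Set ℂ, (∃ k ≤ n + 3, IsPolygon k D) →
        (∀ᶠ k in atTop, dirichletEigenvalue (region p) k = dirichletEigenvalue D k) →
        Congruent (region p) D) ∧
      ∃ K : ℕ, ∀ D : Set ℂ, (∃ k ≤ n + 3, IsPolygon k D) →
        (∀ k, 1 ≤ k → k ≤ K → dirichletEigenvalue (region p) k = dirichletEigenvalue D k) →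
        Congruent (region p) D := by
  obtain ⟨G, h1, h2, h3⟩ := Pool.Agent.N275.GP.final n
  refine ⟨G, h1, h2, fun p hp => ?_⟩
  obtain ⟨hc, ⟨K, g1⟩, g2, g3⟩ := h3 p hp
  refine ⟨hc, ?_, ?_, K, ?_⟩
  · intro D hD h
    rcases g3 D hD.isOpen hD.convex hD.isBounded hD.nonempty h with h4 | ⟨m, hm, q, hq, rfl, h5⟩
    · exact Or.inl h4
    · refine Or.inr ⟨m + 3, by omega, ⟨m, rfl, q, hq, rfl⟩, ?_⟩
      push_cast
      exact h5
  · rintro D ⟨_, hk, m, rfl, q, hq, rfl⟩ h
    exact g2 m (by omega) q hq h
  · rintro D ⟨_, hk, m, rfl, q, hq, rfl⟩ h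
    exact g1 m (by omega) q hq h

end Pool.Agent.Results.MP_c1b9d3_an.IsospectralToPolygon
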